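import Pool.Agent.H220M.Base4

/-! Part M3 of project LQ: counting in a box. -/

set_option autoImplicit false

namespace Pool.Agent.W180.LQ

open Finset MeasureTheory Filter Polynomial
open scoped ENNReal
open Pool.Agent.H220M

theorem tM3 : StmM3 := by
  intro k M x hM P inst hP
  have h1 : (x / M + 1) ^ k = (Fintype.piFinset (fun _ : Fin k => range (x / M + 1))).card := by
    rw [Fintype.card_piFinset, Finset.prod_const, card_range, card_univ, Fintype.card_fin]
  rw [h1, ← Finset.card_product]
  apply Finset.card_le_card_of_injOn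
    (fun τ : Fin k → ℕ => ((fun i => τ i / M), (fun i => τ i % M)))
  · intro τ hτ
    have hτ' := Finset.mem_filter.1 hτ
    have h2 := Fintype.mem_piFinset.1 hτ'.1
    have hmem : (((fun i => τ i / M), (fun i => τ i % M)) : (Fin k → ℕ) × (Fin k → ℕ)) ∈
        Fintype.piFinset (fun _ : Fin k => range (x / M + 1)) ×ˢ
        (Fintype.piFinset (fun _ : Fin k => range M)).filter P := by
      rw [Finset.mem_product, Finset.mem_filter, Fintype.mem_piFinset, Fintype.mem_piFinset]
      refine ⟨fun i => ?_, fun i => ?_, ?_⟩
      · have := Finset.mem_range.1 (h2 i)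
        exact Finset.mem_range.2 (Nat.lt_succ_of_le (Nat.div_le_div_right this.le))
      · exact Finset.mem_range.2 (Nat.mod_lt _ hM)
      · exact (hP τ (fun i => τ i % M) (fun i => (Nat.mod_modEq _ _).symm)).1 hτ'.2
    exact hmem
  · intro τ _ τ' _ h
    rw [Prod.mk.injEq] at h
    funext i
    have h2 := congrFun h.1 i
    have h3 := congrFun h.2 i
    rw [← Nat.div_add_mod (τ i) M, ← Nat.div_add_mod (τ' i) M, h2, h3]

end Pool.Agent.W180.LQ
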