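import Pool.Agent.H220M.Base4

/-! Part M4 of project LQ: local count for tuples. -/

set_option autoImplicit false

namespace Pool.Agent.W180.LQ

open Finset MeasureTheory Filter Polynomial
open scoped ENNReal
open Pool.Agent.H220M

theorem tM4 (hP2 : StmP2) (hM4a : StmM4a) : StmM4 := by
  intro F q s hq hF hs hsd inst
  classical
  obtain ⟨hd, hz⟩ := hM4a F q hq hF
  obtain ⟨d, hdd⟩ : ∃ d, d = F.natDegree := ⟨_, rfl⟩
  rw [← hdd] at hd hz hsd
  have h2d : 2 * F.natDegree ≤ q := by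
    rw [← hdd]
    calc 2 * d ≤ 4 * s * d := Nat.mul_le_mul_right d (by omega)
      _ ≤ q := hsd
  obtain ⟨A, hA⟩ : ∃ A : Finset ℕ, A = (range (q ^ 2)).filter (fun r : ℕ =>
    (q : ℤ) ∣ F.eval ((r : ℤ) + 1) ∧ ¬ (q : ℤ) ^ 2 ∣ F.eval ((r : ℤ) + 1)) := ⟨_, rfl⟩
  obtain ⟨B, hB⟩ : ∃ B : Finset ℕ, B = (range (q ^ 2)).filter (fun r : ℕ =>
    ¬ (q : ℤ) ∣ F.eval ((r : ℤ) + 1)) := ⟨_, rfl⟩
  have hq0 : (0:ℝ) < q := by exact_mod_cast hq.pos
  have hAc : (q : ℝ) / 2 ≤ A.card := by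
    have h1 := (hP2 F q hq h2d hF 0).2.2 (fun _ => Classical.propDecidable _)
    have h2 := Finset.card_filter_add_card_filter_not (s := range (q ^ 2)) (fun r : ℕ =>
      (q : ℤ) ∣ F.eval ((r : ℤ) + 1) ∧ ¬ (q : ℤ) ^ 2 ∣ F.eval ((r : ℤ) + 1))
    rw [← hA, card_range] at h2
    have h3 : ((range (q ^ 2)).filter (locP F q 0)).card =
      ((range (q ^ 2)).filter (fun r : ℕ => ¬ ((q : ℤ) ∣ F.eval ((r : ℤ) + 1) ∧
        ¬ (q : ℤ) ^ 2 ∣ F.eval ((r : ℤ) + 1)))).card := by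
      congr 1
      ext r
      simp only [Finset.mem_filter, locP]
      simp
    rw [h3] at h1
    have h4 : (A.card : ℝ) + ((range (q ^ 2)).filter (fun r : ℕ => ¬ ((q : ℤ) ∣
        F.eval ((r : ℤ) + 1) ∧ ¬ (q : ℤ) ^ 2 ∣ F.eval ((r : ℤ) + 1)))).card = (q : ℝ) ^ 2 := by
      exact_mod_cast h2
    have h5 : (q : ℝ) ^ 2 * (1 - 1 / (2 * q)) = (q : ℝ) ^ 2 - q / 2 := by
      field_simp
    rw [h5] at h1
    linarith
  have hBc : (q : ℝ) ^ 2 - q * d ≤ B.card := by
    have h2 := Finset.card_filter_add_card_filter_not (s := range (q ^ 2)) (fun r : ℕ =>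
      (q : ℤ) ∣ F.eval ((r : ℤ) + 1))
    rw [← hB, card_range] at h2
    have h3 : (q : ℝ) ^ 2 = (((range (q ^ 2)).filter (fun r : ℕ =>
      (q : ℤ) ∣ F.eval ((r : ℤ) + 1))).card : ℝ) + B.card := by
      exact_mod_cast h2.symm
    have h4 : (((range (q ^ 2)).filter (fun r : ℕ =>
      (q : ℤ) ∣ F.eval ((r : ℤ) + 1))).card : ℝ) ≤ q * d := by
      exact_mod_cast hz
    linarith
  -- the sets `T i`
  obtain ⟨T, hT⟩ : ∃ T : Fin (2 * s) → Finset (Fin (2 * s) → ℕ),
    T = fun i => Fintype.piFinset (fun i' => if i' = i then A else B) := ⟨_, rfl⟩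
  have hTc : ∀ i, (T i).card = A.card * B.card ^ (2 * s - 1) := by
    intro i
    rw [hT]
    simp only [Fintype.card_piFinset]
    rw [← Finset.mul_prod_erase univ _ (mem_univ i)]
    congr 1
    · simp
    · rw [Finset.prod_congr rfl (g := fun _ => B.card)]
      · rw [Finset.prod_const, Finset.card_erase_of_mem (mem_univ i)]
        simp
      · intro j hj
        rw [Finset.mem_erase] at hj
        simp [hj.1]
  have hdisj : ∀ i ∈ (univ : Finset (Fin (2 * s))), ∀ j ∈ (univ : Finset (Fin (2 * s))),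
      i ≠ j → Disjoint (T i) (T j) := by
    intro i _ j _ hij
    rw [Finset.disjoint_left]
    intro τ h1 h2
    rw [hT] at h1 h2
    rw [Fintype.mem_piFinset] at h1 h2
    have h3 := h1 i
    have h4 := h2 i
    rw [if_pos rfl] at h3
    rw [if_neg hij] at h4
    rw [hA, Finset.mem_filter] at h3
    rw [hB, Finset.mem_filter] at h4
    exact h4.2 h3.2.1
  have hsub : univ.biUnion T ⊆ (Fintype.piFinset (fun _ : Fin (2 * s) => range (q ^ 2))).filter
      (fun τ => one F q τ) := by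
    intro τ hτ
    rw [Finset.mem_biUnion] at hτ
    obtain ⟨i, _, hi⟩ := hτ
    rw [hT, Fintype.mem_piFinset] at hi
    rw [Finset.mem_filter, Fintype.mem_piFinset]
    have hAi : τ i ∈ A := by
      have := hi i
      rwa [if_pos rfl] at this
    have hBi : ∀ i', i' ≠ i → τ i' ∈ B := by
      intro i' h
      have := hi i'
      rwa [if_neg h] at this
    rw [hA, Finset.mem_filter] at hAi
    refine ⟨?_, i, hAi.2, ?_⟩
    · intro i'
      by_cases h : i' = i
      · rw [h]; exact hAi.1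
      · have := hBi i' h
        rw [hB, Finset.mem_filter] at this
        exact this.1
    · intro i' h
      have := hBi i' h
      rw [hB, Finset.mem_filter] at this
      exact this.2
  have hO : 2 * s * (A.card * B.card ^ (2 * s - 1)) ≤
      ((Fintype.piFinset (fun _ : Fin (2 * s) => range (q ^ 2))).filter
      (fun τ => one F q τ)).card := by
    have h1 := Finset.card_le_card hsub
    rw [Finset.card_biUnion hdisj] at h1
    simp only [hTc, sum_const, card_univ, Fintype.card_fin, smul_eq_mul] at h1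
    exact h1
  have htot := Finset.card_filter_add_card_filter_not
    (s := Fintype.piFinset (fun _ : Fin (2 * s) => range (q ^ 2))) (fun τ => one F q τ)
  rw [Fintype.card_piFinset, Finset.prod_const, card_range, card_univ, Fintype.card_fin] at htot
  have htot' : (((Fintype.piFinset (fun _ : Fin (2 * s) => range (q ^ 2))).filter
      (fun τ => one F q τ)).card : ℝ) + (((Fintype.piFinset (fun _ : Fin (2 * s) =>
        range (q ^ 2))).filter (fun τ => ¬ one F q τ)).card : ℝ) = ((q : ℝ) ^ 2) ^ (2 * s) := by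
    exact_mod_cast htot
  have hO' : 2 * (s : ℝ) * (A.card * (B.card : ℝ) ^ (2 * s - 1)) ≤
      (((Fintype.piFinset (fun _ : Fin (2 * s) => range (q ^ 2))).filter
      (fun τ => one F q τ)).card : ℝ) := by
    exact_mod_cast hO
  -- Bernoulli
  have hsd' : 4 * (s : ℝ) * d ≤ q := by exact_mod_cast hsd
  have hs1 : (1:ℝ) ≤ s := by exact_mod_cast hs
  have hd0 : (0:ℝ) ≤ d := Nat.cast_nonneg d
  have hdq : (d : ℝ) / q ≤ 1 := by
    rw [div_le_one hq0]
    nlinarith
  have hbern : (1:ℝ) / 2 ≤ (1 - (d : ℝ) / q) ^ (2 * s - 1) := by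
    have h1 := one_add_mul_le_pow (a := -((d : ℝ) / q)) (by linarith) (2 * s - 1)
    have h2 : (((2 * s - 1 : ℕ) : ℝ)) ≤ 2 * s := by
      have : 2 * s - 1 ≤ 2 * s := Nat.sub_le _ _
      exact_mod_cast this
    have h3 : (2 * s : ℝ) * ((d : ℝ) / q) ≤ 1 / 2 := by
      rw [mul_div_assoc', div_le_iff₀ hq0]
      linarith
    have h4 : (0:ℝ) ≤ (d : ℝ) / q := by positivity
    have h5 : (((2 * s - 1 : ℕ) : ℝ)) * ((d : ℝ) / q) ≤ 1 / 2 :=
      (mul_le_mul_of_nonneg_right h2 h4).trans h3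
    calc (1:ℝ) / 2 ≤ 1 + (((2 * s - 1 : ℕ) : ℝ)) * (-((d : ℝ) / q)) := by linarith
      _ ≤ (1 + -((d : ℝ) / q)) ^ (2 * s - 1) := h1
      _ = (1 - (d : ℝ) / q) ^ (2 * s - 1) := by rw [← sub_eq_add_neg]
  have hBp : ((q : ℝ) ^ 2) ^ (2 * s - 1) * (1 / 2) ≤ (B.card : ℝ) ^ (2 * s - 1) := by
    calc ((q : ℝ) ^ 2) ^ (2 * s - 1) * (1 / 2) ≤
        ((q : ℝ) ^ 2) ^ (2 * s - 1) * (1 - (d : ℝ) / q) ^ (2 * s - 1) :=
          mul_le_mul_of_nonneg_left hbern (by positivity)
      _ = ((q : ℝ) ^ 2 - q * d) ^ (2 * s - 1) := by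
          rw [← mul_pow]
          congr 1
          field_simp
      _ ≤ (B.card : ℝ) ^ (2 * s - 1) := by
          apply pow_le_pow_left₀ _ hBc
          nlinarith
  have hAB : (q : ℝ) / 2 * (((q : ℝ) ^ 2) ^ (2 * s - 1) * (1 / 2)) ≤
      A.card * (B.card : ℝ) ^ (2 * s - 1) :=
    mul_le_mul hAc hBp (by positivity) (by positivity)
  have hfin : ((q : ℝ) ^ 2) ^ (2 * s) * (s / (2 * q)) ≤
      (((Fintype.piFinset (fun _ : Fin (2 * s) => range (q ^ 2))).filter
      (fun τ => one F q τ)).card : ℝ) := by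
    refine le_trans (le_of_eq ?_) ((mul_le_mul_of_nonneg_left hAB
      (by positivity : (0:ℝ) ≤ 2 * (s : ℝ))).trans hO')
    have h1 : ((q : ℝ) ^ 2) ^ (2 * s) = ((q : ℝ) ^ 2) ^ (2 * s - 1) * (q : ℝ) ^ 2 := by
      rw [← pow_succ]
      congr 1
      omega
    rw [h1]
    field_simp
  have hgoal : (((Fintype.piFinset (fun _ : Fin (2 * s) =>
        range (q ^ 2))).filter (fun τ => ¬ one F q τ)).card : ℝ) ≤
        ((q : ℝ) ^ 2) ^ (2 * s) * (1 - s / (2 * q)) := by
    rw [mul_sub, mul_one]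
    linarith
  convert hgoal using 3

end Pool.Agent.W180.LQ
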