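import Pool.Agent.H220M.Base4

/-! Part M5 of project LQ: exponential Chebyshev bound. -/

set_option autoImplicit false

namespace Pool.Agent.W180.LQ

open Finset MeasureTheory Filter Polynomial
open scoped ENNReal
open Pool.Agent.H220M

lemma one_congr {k : ℕ} (F : ℤ[X]) (q : ℕ) (τ τ' : Fin k → ℕ)
    (h : ∀ i, τ i ≡ τ' i [MOD q ^ 2]) (h1 : one F q τ) : one F q τ' := by
  have key : ∀ i, (q : ℤ) ^ 2 ∣ F.eval ((τ' i : ℤ) + 1) - F.eval ((τ i : ℤ) + 1) := by
    intro i
    have h2 := (Nat.modEq_iff_dvd.1 (h i))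
    have h3 : (q : ℤ) ^ 2 ∣ ((τ' i : ℤ) + 1) - ((τ i : ℤ) + 1) := by
      push_cast at h2
      simpa using h2
    exact h3.trans (Polynomial.sub_dvd_eval_sub _ _ _)
  have key1 : ∀ i, (q : ℤ) ∣ F.eval ((τ' i : ℤ) + 1) - F.eval ((τ i : ℤ) + 1) := fun i =>
    (dvd_pow_self _ two_ne_zero).trans (key i)
  obtain ⟨i, ⟨h2, h3⟩, h4⟩ := h1
  refine ⟨i, ⟨(dvd_iff_dvd_of_dvd_sub (key1 i)).2 h2, fun h5 => h3
    ((dvd_iff_dvd_of_dvd_sub (key i)).1 h5)⟩, fun i' hi' h5 => h4 i' hi'
    ((dvd_iff_dvd_of_dvd_sub (key1 i')).1 h5)⟩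

lemma one_odd {k : ℕ} (F : ℤ[X]) (q : ℕ) (hq : q.Prime) (τ : Fin k → ℕ) (h1 : one F q τ) :
    ¬ Even (∑ i, (F.eval ((τ i : ℤ) + 1)).natAbs.factorization q) := by
  obtain ⟨i, ⟨h2, h3⟩, h4⟩ := h1
  have h5 : (F.eval ((τ i : ℤ) + 1)).natAbs.factorization q = 1 := by
    have h6 : (F.eval ((τ i : ℤ) + 1)).natAbs ≠ 0 := by
      intro h7
      rw [Int.natAbs_eq_zero] at h7
      exact h3 (by rw [h7]; exact dvd_zero _)
    have h7 : q ^ 1 ∣ (F.eval ((τ i : ℤ) + 1)).natAbs := by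
      rw [pow_one]
      exact Int.natCast_dvd.1 h2
    have h8 : ¬ q ^ 2 ∣ (F.eval ((τ i : ℤ) + 1)).natAbs := by
      intro h9
      apply h3
      have := Int.natCast_dvd.2 h9
      push_cast at this
      exact this
    rw [hq.pow_dvd_iff_le_factorization h6] at h7 h8
    omega
  have h6 : ∑ i, (F.eval ((τ i : ℤ) + 1)).natAbs.factorization q = 1 := by
    rw [Finset.sum_eq_single i, h5]
    · intro i' _ hi'
      apply Nat.factorization_eq_zero_of_not_dvd
      intro h9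
      exact h4 i' hi' (Int.natCast_dvd.2 h9)
    · intro h; exact absurd (Finset.mem_univ i) h
  rw [h6]
  decide

theorem tM5 (hM1 : StmM1) (hM2 : StmM2) (hM3 : StmM3) (hM4 : StmM4) : StmM5 := by
  intro F η s Q hη hs hQ hsum x hx G hG inst
  classical
  have hMpos : 0 < ∏ q ∈ Q, q ^ 2 :=
    Finset.prod_pos fun q hq => pow_pos (hQ q hq).1.pos 2
  obtain ⟨M, hM⟩ : ∃ M, M = ∏ q ∈ Q, q ^ 2 := ⟨_, rfl⟩
  rw [← hM] at hMpos hx
  have hx0 : 0 < x := lt_of_lt_of_le hMpos hx
  -- the count of tuples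
  have hcount : ((((Fintype.piFinset (fun _ : Fin (2 * s) => range x)).filter
      (fun τ => ∀ q ∈ Q, Even (∑ i, (F.eval ((τ i : ℤ) + 1)).natAbs.factorization q))).card
        : ℕ) : ℝ) ≤ (2 * x) ^ (2 * s) * Real.exp (-(s / 2 * ∑ q ∈ Q, (1 : ℝ) / q)) := by
    have c1 : (((Fintype.piFinset (fun _ : Fin (2 * s) => range x)).filter
      (fun τ => ∀ q ∈ Q, Even (∑ i, (F.eval ((τ i : ℤ) + 1)).natAbs.factorization q))).card)
      ≤ ((Fintype.piFinset (fun _ : Fin (2 * s) => range x)).filter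
      (fun τ => ∀ q ∈ Q, ¬ one F q τ)).card := by
      apply Finset.card_le_card
      intro τ hτ
      rw [Finset.mem_filter] at hτ ⊢
      exact ⟨hτ.1, fun q hq h => one_odd F q (hQ q hq).1 τ h (hτ.2 q hq)⟩
    have c2 := hM3 (2 * s) M x hMpos (fun τ => ∀ q ∈ Q, ¬ one F q τ) (by
      intro τ τ' h
      have hd : ∀ q ∈ Q, q ^ 2 ∣ M := fun q hq => by
        rw [hM]; exact Finset.dvd_prod_of_mem (fun q => q ^ 2) hq
      constructor
      · intro h1 q hq h2
        exact h1 q hq (one_congr F q τ' τ (fun i => ((h i).symm).of_dvd (hd q hq)) h2)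
      · intro h1 q hq h2
        exact h1 q hq (one_congr F q τ τ' (fun i => (h i).of_dvd (hd q hq)) h2))
    have c3 := hM2 (2 * s) Q (fun q hq => (hQ q hq).1) (fun q τ => ¬ one F q τ) (by
      intro q hq τ τ' h
      constructor
      · intro h1 h2
        exact h1 (one_congr F q τ' τ (fun i => (h i).symm) h2)
      · intro h1 h2
        exact h1 (one_congr F q τ τ' h h2))
    rw [← hM] at c3
    have c4 : ((∏ q ∈ Q, ((Fintype.piFinset (fun _ : Fin (2 * s) => range (q ^ 2))).filter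
        (fun τ => ¬ one F q τ)).card : ℕ) : ℝ) ≤
        (M : ℝ) ^ (2 * s) * Real.exp (-(s / 2 * ∑ q ∈ Q, (1 : ℝ) / q)) := by
      push_cast
      have c5 : ∏ q ∈ Q, ((((Fintype.piFinset (fun _ : Fin (2 * s) => range (q ^ 2))).filter
        (fun τ => ¬ one F q τ)).card : ℕ) : ℝ) ≤
          ∏ q ∈ Q, (((q : ℝ) ^ 2) ^ (2 * s) * Real.exp (-(s / 2 * (1 / q)))) := by
        apply Finset.prod_le_prod
        · intro q _
          exact Nat.cast_nonneg _
        · intro q hq
          have h1 := hM4 F q s (hQ q hq).1 (hQ q hq).2.1 hs (hQ q hq).2.2 inferInstance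
          refine h1.trans ?_
          apply mul_le_mul_of_nonneg_left _ (by positivity)
          have h2 := Real.add_one_le_exp (-((s : ℝ) / 2 * (1 / q)))
          have h3 : (1 : ℝ) - s / (2 * q) = -((s : ℝ) / 2 * (1 / q)) + 1 := by
            have : (q : ℝ) ≠ 0 := by exact_mod_cast (hQ q hq).1.ne_zero
            field_simp
            ring
          rw [h3]
          exact h2
      refine c5.trans (le_of_eq ?_)
      rw [Finset.prod_mul_distrib, ← Real.exp_sum, Finset.prod_pow, hM, Finset.sum_neg_distrib,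
        ← Finset.mul_sum]
      push_cast
      rfl
    calc ((((Fintype.piFinset (fun _ : Fin (2 * s) => range x)).filter
      (fun τ => ∀ q ∈ Q, Even (∑ i, (F.eval ((τ i : ℤ) + 1)).natAbs.factorization q))).card
        : ℕ) : ℝ) ≤ (((x / M + 1) ^ (2 * s) * ((Fintype.piFinset (fun _ : Fin (2 * s) =>
          range M)).filter (fun τ => ∀ q ∈ Q, ¬ one F q τ)).card : ℕ) : ℝ) := by
          exact_mod_cast c1.trans c2
      _ = (((x / M + 1 : ℕ) : ℝ)) ^ (2 * s) * ((∏ q ∈ Q, ((Fintype.piFinset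
          (fun _ : Fin (2 * s) => range (q ^ 2))).filter
        (fun τ => ¬ one F q τ)).card : ℕ) : ℝ) := by
          rw [← c3]
          push_cast
          rfl
      _ ≤ (((x / M + 1 : ℕ) : ℝ)) ^ (2 * s) * ((M : ℝ) ^ (2 * s) *
          Real.exp (-(s / 2 * ∑ q ∈ Q, (1 : ℝ) / q))) :=
          mul_le_mul_of_nonneg_left c4 (by positivity)
      _ = ((((x / M + 1) * M : ℕ) : ℝ)) ^ (2 * s) *
          Real.exp (-(s / 2 * ∑ q ∈ Q, (1 : ℝ) / q)) := by
          rw [← mul_assoc, ← mul_pow]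
          push_cast
          rfl
      _ ≤ (2 * x) ^ (2 * s) * Real.exp (-(s / 2 * ∑ q ∈ Q, (1 : ℝ) / q)) := by
          apply mul_le_mul_of_nonneg_right _ (Real.exp_pos _).le
          apply pow_le_pow_left₀ (Nat.cast_nonneg _)
          have h1 : (x / M + 1) * M ≤ 2 * x := by
            have := Nat.div_mul_le_self x M
            nlinarith
          exact_mod_cast h1
  have hm := hM1 Q x (2 * s) G hG (fun q m => (F.eval ((m : ℤ) + 1)).natAbs.factorization q)
  have hflip : ∀ (S : Finset ℕ) (n : ℕ), (((flipU S n : ℤˣ) : ℤ) : ℝ) =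
      ∏ q ∈ S, (-1 : ℝ) ^ (n.factorization q) := by
    intro S n
    simp [flipU, Units.coe_prod]
  -- Markov
  have hmk : ((Q.powerset.filter (fun S => η * x <
        |∑ m ∈ range x, G m *
          (((flipU S ((F.eval ((m : ℤ) + 1)).natAbs) : ℤˣ) : ℤ) : ℝ)|)).card : ℝ)
        * (η * x) ^ (2 * s) ≤ ∑ S ∈ Q.powerset, (∑ m ∈ range x, G m *
          ∏ q ∈ S, (-1 : ℝ) ^ ((F.eval ((m : ℤ) + 1)).natAbs.factorization q)) ^ (2 * s) := by
    rw [← nsmul_eq_mul]
    refine le_trans ?_ (Finset.sum_le_sum_of_subset_of_nonneg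
      (Finset.filter_subset (fun S => η * x <
        |∑ m ∈ range x, G m *
          (((flipU S ((F.eval ((m : ℤ) + 1)).natAbs) : ℤˣ) : ℤ) : ℝ)|) _) ?_)
    · rw [← Finset.sum_const]
      apply Finset.sum_le_sum
      intro S hS
      rw [Finset.mem_filter] at hS
      have h1 := hS.2
      simp only [hflip] at h1
      exact (pow_le_pow_left₀ (by positivity) h1.le _).trans
        (le_of_eq (Even.pow_abs (even_two_mul s) _))
    · intro S _ _
      exact (even_two_mul s).pow_nonneg _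
  have hfin := hmk.trans (hm.trans (mul_le_mul_of_nonneg_left hcount (by positivity)))
  have hpos : 0 < (η * x) ^ (2 * s) := by
    have : (0:ℝ) < x := by exact_mod_cast hx0
    positivity
  refine le_of_mul_le_mul_right (hfin.trans ?_) hpos
  have h1 : (2 * (x:ℝ)) ^ (2 * s) = Real.exp (2 * s * Real.log (2 / η)) * (η * x) ^ (2 * s) := by
    have h2 : Real.exp (2 * s * Real.log (2 / η)) = (2 / η) ^ (2 * s) := by
      rw [← Real.rpow_natCast, Real.rpow_def_of_pos (by positivity)]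
      congr 1
      push_cast
      ring
    rw [h2, ← mul_pow]
    congr 1
    field_simp
  rw [h1]
  have h2 : Real.exp (2 * s * Real.log (2 / η)) *
      Real.exp (-(s / 2 * ∑ q ∈ Q, (1 : ℝ) / q)) ≤ Real.exp (-(s : ℝ)) := by
    rw [← Real.exp_add]
    apply Real.exp_le_exp.2
    have h3 : (0:ℝ) ≤ s / 2 := by positivity
    have := mul_le_mul_of_nonneg_left hsum h3
    linarith
  have h4 : 0 ≤ (2:ℝ) ^ Q.card * (η * x) ^ (2 * s) := by positivity
  have := mul_le_mul_of_nonneg_left h2 h4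
  nlinarith

end Pool.Agent.W180.LQ
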