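import Pool.Agent.H220M.Base4

/-! Part M6 of project LQ: almost sure cancellation. -/

set_option autoImplicit false

namespace Pool.Agent.W180.LQ

open Finset MeasureTheory Filter Polynomial
open scoped ENNReal
open Pool.Agent.H220M

lemma prod_le (j : ℕ) (S : Finset ℕ) (hS : ∀ q ∈ S, q.Prime ∧ q ≤ j / 4) :
    ∏ q ∈ S, q ^ 2 ≤ 2 ^ j := by
  have h1 : ∏ q ∈ S, q ≤ primorial (j / 4) := by
    unfold primorial
    apply Finset.prod_le_prod_of_subset_of_one_le'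
    · intro q hq
      simp only [Finset.mem_filter, Finset.mem_range]
      exact ⟨by have := (hS q hq).2; omega, (hS q hq).1⟩
    · intro q hq _
      simp only [Finset.mem_filter] at hq
      exact hq.2.one_le
  have h2 := h1.trans (primorial_le_four_pow (j / 4))
  rw [Finset.prod_pow]
  calc (∏ q ∈ S, q) ^ 2 ≤ (4 ^ (j / 4)) ^ 2 := Nat.pow_le_pow_left h2 2
    _ = 2 ^ (4 * (j / 4)) := by
      rw [show (4:ℕ) = 2 ^ 2 by norm_num, ← pow_mul, ← pow_mul]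
      congr 1
      ring
    _ ≤ 2 ^ j := Nat.pow_le_pow_right (by norm_num) (by omega)

lemma exp_bound (j : ℕ) (hj : 1 ≤ j) :
    Real.exp (-((2 * (Nat.log 2 j + 1) : ℕ) : ℝ)) ≤ 1 / (j : ℝ) ^ 2 := by
  have h1 : j < 2 ^ (Nat.log 2 j + 1) := Nat.lt_pow_succ_log_self (by norm_num) j
  have h2 : (j : ℝ) ≤ Real.exp ((Nat.log 2 j + 1 : ℕ) : ℝ) := by
    have h3 : (2 : ℝ) ≤ Real.exp 1 := by
      have := Real.add_one_le_exp (1:ℝ)
      linarith
    have h4 : (j : ℝ) ≤ 2 ^ (Nat.log 2 j + 1) := by exact_mod_cast h1.le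
    calc (j : ℝ) ≤ 2 ^ (Nat.log 2 j + 1) := h4
      _ ≤ (Real.exp 1) ^ (Nat.log 2 j + 1) := pow_le_pow_left₀ (by norm_num) h3 _
      _ = Real.exp ((Nat.log 2 j + 1 : ℕ) : ℝ) := by
        rw [← Real.exp_nat_mul, mul_one]
  have hj0 : (0:ℝ) < j := by exact_mod_cast hj
  rw [Real.exp_neg, one_div]
  apply inv_anti₀ (by positivity)
  calc (j : ℝ) ^ 2 ≤ (Real.exp ((Nat.log 2 j + 1 : ℕ) : ℝ)) ^ 2 :=
        pow_le_pow_left₀ hj0.le h2 2
    _ = Real.exp ((2 * (Nat.log 2 j + 1) : ℕ) : ℝ) := by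
      rw [← Real.exp_nat_mul]
      congr 1
      push_cast
      ring

lemma log_bound (j d K : ℕ) (hK : 8 * d + 24 ≤ K) (hj : 4 * 2 ^ K ≤ j) :
    4 * (2 * (Nat.log 2 j + 1)) * d ≤ (Nat.log 2 (j / 4)) ^ 2 := by
  have h1 : Nat.log 2 (j / 4) = Nat.log 2 j - 2 := by
    rw [show j / 4 = j / 2 / 2 by omega, Nat.log_div_base, Nat.log_div_base]
    omega
  have h2 : K ≤ Nat.log 2 (j / 4) := by
    apply Nat.le_log_of_pow_le (by norm_num)
    omega
  have h3 : Nat.log 2 j = Nat.log 2 (j / 4) + 2 := by omega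
  rw [h3]
  generalize Nat.log 2 (j / 4) = u at *
  nlinarith

theorem tM6 (hC0 : StmC0) (hM5 : StmM5) (hM6a : StmM6a) (hM6b : StmM6b) : StmM6 := by
  intro g Q hQ F w hw hT
  classical
  have := hC0.1
  have key : ∀ η : ℝ, 0 < η → ∀ r : ℕ, 1 ≤ r → ∀ᵐ ω ∂coins, ∀ᶠ j : ℕ in atTop,
      |∑ m ∈ range (2 ^ j * r), w m *
        (((modif g Q ω ((F.eval ((m : ℤ) + 1)).natAbs) : ℤˣ) : ℤ) : ℝ)|
        ≤ η * ((2 ^ j * r : ℕ) : ℝ) := by
    intro η hη r hr
    have hdiv : Tendsto (fun j : ℕ => j / 4) atTop atTop :=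
      tendsto_atTop_atTop.2 fun b => ⟨4 * b, fun a ha => by omega⟩
    have hT2 := hT.comp hdiv
    have e1 : ∀ᶠ j : ℕ in atTop, coins {ω | η * ((2 ^ j * r : ℕ) : ℝ) <
        |∑ m ∈ range (2 ^ j * r), w m *
        (((modif g Q ω ((F.eval ((m : ℤ) + 1)).natAbs) : ℤˣ) : ℤ) : ℝ)|}
        ≤ ENNReal.ofReal (1 / (j : ℝ) ^ 2) := by
      filter_upwards [hT2.eventually_ge_atTop (4 * Real.log (2 / η) + 2),
        eventually_ge_atTop (4 * 2 ^ (8 * F.natDegree + 24)), eventually_ge_atTop 1]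
        with j h1 h2 h3
      obtain ⟨Q₀, hQ₀⟩ : ∃ Q₀ : Finset ℕ, Q₀ = (Icc 1 (j / 4)).filter
        (fun q => q ∈ {q | q ∈ Q ∧ SimpleRoot F q} ∧ (Nat.log 2 (j / 4)) ^ 2 < q) := ⟨_, rfl⟩
      have hmem : ∀ q ∈ Q₀, q ≤ j / 4 ∧ q ∈ Q ∧ SimpleRoot F q ∧
          (Nat.log 2 (j / 4)) ^ 2 < q := by
        intro q hq
        rw [hQ₀, Finset.mem_filter, Finset.mem_Icc] at hq
        exact ⟨hq.1.2, hq.2.1.1, hq.2.1.2, hq.2.2⟩
      have hs : (4 * Real.log (2 / η) + 2) ≤ ∑ q ∈ Q₀, (1 : ℝ) / q := by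
        refine le_of_le_of_eq h1 ?_
        rw [hQ₀]
        simp only [Function.comp]
        apply Finset.sum_congr
        · ext q
          simp only [Finset.mem_filter, Set.mem_setOf_eq]
        · intro q _
          rfl
      have hlb := log_bound j F.natDegree _ le_rfl h2
      have hx : (∏ q ∈ Q₀, q ^ 2) ≤ 2 ^ j * r := by
        calc (∏ q ∈ Q₀, q ^ 2) ≤ 2 ^ j :=
              prod_le j Q₀ (fun q hq => ⟨hQ q (hmem q hq).2.1, (hmem q hq).1⟩)
          _ = 2 ^ j * 1 := (mul_one _).symm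
          _ ≤ 2 ^ j * r := Nat.mul_le_mul_left _ hr
      refine le_trans ?_ (ENNReal.ofReal_le_ofReal (exp_bound j h3))
      refine hC0.2 g Q Q₀ (fun q hq => ⟨(hmem q hq).2.1, hQ q (hmem q hq).2.1⟩)
        (fun h => η * ((2 ^ j * r : ℕ) : ℝ) < |∑ m ∈ range (2 ^ j * r), w m *
        (((h ((F.eval ((m : ℤ) + 1)).natAbs) : ℤˣ) : ℤ) : ℝ)|)
        (hM6b g Q F w (2 ^ j * r) (η * ((2 ^ j * r : ℕ) : ℝ))) _ (Real.exp_pos _).le ?_
      intro g'
      have h4 := hM5 F η (2 * (Nat.log 2 j + 1)) Q₀ hη (by omega)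
        (fun q hq => ⟨hQ q (hmem q hq).2.1, (hmem q hq).2.2.1,
          hlb.trans (hmem q hq).2.2.2.le⟩) hs (2 ^ j * r) hx
        (fun m => w m * (((g' ((F.eval ((m : ℤ) + 1)).natAbs) : ℤˣ) : ℤ) : ℝ))
        (by
          intro m
          rw [abs_mul]
          have h5 : |(((g' ((F.eval ((m : ℤ) + 1)).natAbs) : ℤˣ) : ℤ) : ℝ)| = 1 := by
            rcases Int.units_eq_one_or (g' ((F.eval ((m : ℤ) + 1)).natAbs)) with h | h <;>
              simp [h]
          rw [h5, mul_one]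
          exact hw m)
        (fun _ => Classical.propDecidable _)
      refine le_trans (le_of_eq ?_) h4
      congr 2
      ext S
      simp only [Finset.mem_filter, Units.val_mul, Int.cast_mul, mul_assoc]
    obtain ⟨j₀, hj₀⟩ := eventually_atTop.1 e1
    have h5 : ∑' j : ℕ, coins (if j₀ ≤ j then {ω | η * ((2 ^ j * r : ℕ) : ℝ) <
        |∑ m ∈ range (2 ^ j * r), w m *
        (((modif g Q ω ((F.eval ((m : ℤ) + 1)).natAbs) : ℤˣ) : ℤ) : ℝ)|} else ∅) ≠ ∞ := by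
      refine ne_top_of_le_ne_top
        (Summable.tsum_ofReal_ne_top (Real.summable_one_div_nat_pow.2 one_lt_two)) ?_
      apply ENNReal.tsum_le_tsum
      intro j
      split_ifs with h
      · exact hj₀ j h
      · simp
    filter_upwards [ae_eventually_notMem h5] with ω hω
    filter_upwards [hω, eventually_ge_atTop j₀] with j h6 h7
    rw [if_pos h7] at h6
    exact not_lt.1 h6
  have h2 : ∀ᵐ ω ∂coins, ∀ i r : ℕ, 1 ≤ r → ∀ᶠ j : ℕ in atTop,
      |∑ m ∈ range (2 ^ j * r), w m *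
        (((modif g Q ω ((F.eval ((m : ℤ) + 1)).natAbs) : ℤˣ) : ℤ) : ℝ)|
        ≤ (1 / ((i : ℝ) + 1)) * ((2 ^ j * r : ℕ) : ℝ) := by
    rw [ae_all_iff]
    intro i
    rw [ae_all_iff]
    intro r
    by_cases hr : 1 ≤ r
    · filter_upwards [key (1 / ((i : ℝ) + 1)) (by positivity) r hr] with ω h _ using h
    · exact Filter.Eventually.of_forall fun ω h => absurd h hr
  filter_upwards [h2] with ω hω
  apply hM6a (fun m => w m *
    (((modif g Q ω ((F.eval ((m : ℤ) + 1)).natAbs) : ℤˣ) : ℤ) : ℝ))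
  · intro m
    rw [abs_mul]
    have h5 : |(((modif g Q ω ((F.eval ((m : ℤ) + 1)).natAbs) : ℤˣ) : ℤ) : ℝ)| = 1 := by
      rcases Int.units_eq_one_or (modif g Q ω ((F.eval ((m : ℤ) + 1)).natAbs)) with h | h <;>
        simp [h]
    rw [h5, mul_one]
    exact hw m
  · intro η hη B hB
    obtain ⟨i, hi⟩ := exists_nat_one_div_lt hη
    have h6 : ∀ᶠ j : ℕ in atTop, ∀ r ∈ Finset.Ico B (2 * B),
        |∑ m ∈ range (2 ^ j * r), w m *
        (((modif g Q ω ((F.eval ((m : ℤ) + 1)).natAbs) : ℤˣ) : ℤ) : ℝ)|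
        ≤ (1 / ((i : ℝ) + 1)) * ((2 ^ j * r : ℕ) : ℝ) := by
      rw [Filter.eventually_all_finset]
      intro r hr
      rw [Finset.mem_Ico] at hr
      exact hω i r (hB.trans hr.1)
    filter_upwards [h6] with j hj r h7 h8
    exact (hj r (Finset.mem_Ico.2 ⟨h7, h8⟩)).trans
      (mul_le_mul_of_nonneg_right hi.le (by positivity))

end Pool.Agent.W180.LQ
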